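import Pool.Agent.H754R2.HO.Loc

/-!
ROOM HO (helper754): the local statements `LOC0` and `LOC1`.
-/

open H563H Filter Topology

noncomputable section

namespace HopfPP

theorem Qr_zero (O : Fin 3 → V ℝ) : Qr 0 O = fun _ => 0 := by
  funext i j
  fin_cases i <;> fin_cases j <;> simp [Qr, symm3]

theorem Wr_zero (O : Fin 3 → V ℝ) : Wr 0 O = symm3 1 0 0 1 0 1 := by
  funext i j
  fin_cases i <;> fin_cases j <;> simp [Wr, symm3]

/-- dependence of the second order coefficient on `k` -/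
theorem c2_k {μ k : ℝ} {y : YY} (hO : Rotn y.1) :
    (PT (μ, k, y)).c2 = (PT (μ, 0, y)).c2 + 4 * (μ ^ 2 * k * k4 (y.1 2)) := by
  have h1 := KQ_Dr hO μ k
  have h2 : (PT (μ, k, y)).c2 = (PP (DT (Wr μ y.1) (fun _ => 0) y.2.1.1 (vr y.1))
      (tv ![1, 0, 0] 0 0) (aT y.2.2.1) (bT y.2.1.2 y.2.2.2.1) (gTT y.2.2.2.2.1 y.2.2.2.2.2)).c2 +
      4 * KQv (Wr μ y.1) (Qr k y.1) ![0, 0, 1] := by
    rw [Wr, Qr, KQv_e3]
    exact c2_Q _ _ _ _ _ _ _ _ _ _ _ _ _ _ _ _ _ _ _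
  rw [h2, h1]
  have h3 : (PT (μ, 0, y)).c2 = (PP (DT (Wr μ y.1) (fun _ => 0) y.2.1.1 (vr y.1))
      (tv ![1, 0, 0] 0 0) (aT y.2.2.1) (bT y.2.1.2 y.2.2.2.1) (gTT y.2.2.2.2.1 y.2.2.2.2.2)).c2 := by
    simp only [PT, Qr_zero]
  rw [h3]

/-- the total second order term -/
def HH (p : ℝ × YY) : ℝ := (PT (p.1, 0, p.2)).c2 + 1 / 32 * (p.2.2.1.1 ^ 2 * k4 (p.2.1 2))

theorem cont_HH : Continuous HH := by
  have h1 : Continuous fun p : ℝ × YY => (PT (p.1, 0, p.2)).c2 :=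
    cont_c2.comp (continuous_fst.prodMk (continuous_const.prodMk continuous_snd))
  have h2 : Continuous fun p : ℝ × YY => k4 (p.2.1 2) := by
    unfold k4
    fun_prop
  unfold HH
  have h3 : Continuous fun p : ℝ × YY => p.2.2.1.1 ^ 2 := by fun_prop
  exact h1.add (continuous_const.mul (h3.mul h2))

theorem HH_zero_pos {y : YY} (hy : y ∈ K0) : 0 < HH (0, y) := by
  obtain ⟨O, ⟨e, s⟩, r, d, g, h⟩ := y
  obtain ⟨hO, hq, -, -⟩ := hy
  simp only [HH, PT, Qr_zero, Wr_zero]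
  rw [c2_one]
  simp only at hO
  simp only [essq, nq, dt] at hq
  have hS := S_pos hO.o22
  have hv : vr O 2 = O 2 0 + O 2 1 := rfl
  rw [hv]
  by_cases he : e = 0
  · subst he
    by_contra hcon
    have e1 := not_lt.1 hcon
    have sq := fun a : ℝ => sq_nonneg a
    ring_nf at hcon
    have z : s ^ 2 + (r 0 ^ 2 + r 1 ^ 2) + ((s + r 1 - d 1) ^ 2 + (r 0 - d 0) ^ 2) +
      3 * (((g 0 - s) ^ 2 + g 1 ^ 2 + g 2 ^ 2) + ((h 0 - r 1) ^ 2 + (h 1 + r 0) ^ 2 + h 2 ^ 2) +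
        ((g 0 + h 0 - 3 * s - 3 * r 1 + d 1) ^ 2 +
          (g 1 + h 1 + 3 * r 0 - d 0 + 0 * (O 2 0 + O 2 1)) ^ 2 + (g 2 + h 2) ^ 2)) ≤ 0 := by
      linarith
    have z1 := sq (g 0 + h 0 - 3 * s - 3 * r 1 + d 1)
    have z2 := sq (g 1 + h 1 + 3 * r 0 - d 0 + 0 * (O 2 0 + O 2 1))
    have z3 := sq (g 2 + h 2)
    have y1 : s = 0 := pow_eq_zero_iff two_ne_zero |>.1 (le_antisymm (by
      linarith [sq (r 0), sq (r 1), sq (s + r 1 - d 1), sq (r 0 - d 0), sq (g 0 - s), sq (g 1),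
        sq (g 2), sq (h 0 - r 1), sq (h 1 + r 0), sq (h 2)]) (sq s))
    have y2 : r 0 = 0 := pow_eq_zero_iff two_ne_zero |>.1 (le_antisymm (by
      linarith [sq s, sq (r 1), sq (s + r 1 - d 1), sq (r 0 - d 0), sq (g 0 - s), sq (g 1),
        sq (g 2), sq (h 0 - r 1), sq (h 1 + r 0), sq (h 2)]) (sq (r 0)))
    have y3 : r 1 = 0 := pow_eq_zero_iff two_ne_zero |>.1 (le_antisymm (by
      linarith [sq s, sq (r 0), sq (s + r 1 - d 1), sq (r 0 - d 0), sq (g 0 - s), sq (g 1),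
        sq (g 2), sq (h 0 - r 1), sq (h 1 + r 0), sq (h 2)]) (sq (r 1)))
    have y4 : s + r 1 - d 1 = 0 := pow_eq_zero_iff two_ne_zero |>.1 (le_antisymm (by
      linarith [sq s, sq (r 0), sq (r 1), sq (r 0 - d 0), sq (g 0 - s), sq (g 1),
        sq (g 2), sq (h 0 - r 1), sq (h 1 + r 0), sq (h 2)]) (sq _))
    have y5 : r 0 - d 0 = 0 := pow_eq_zero_iff two_ne_zero |>.1 (le_antisymm (by
      linarith [sq s, sq (r 0), sq (r 1), sq (s + r 1 - d 1), sq (g 0 - s), sq (g 1),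
        sq (g 2), sq (h 0 - r 1), sq (h 1 + r 0), sq (h 2)]) (sq _))
    have y6 : g 0 - s = 0 := pow_eq_zero_iff two_ne_zero |>.1 (le_antisymm (by
      linarith [sq s, sq (r 0), sq (r 1), sq (s + r 1 - d 1), sq (r 0 - d 0), sq (g 1),
        sq (g 2), sq (h 0 - r 1), sq (h 1 + r 0), sq (h 2)]) (sq _))
    have y7 : g 1 = 0 := pow_eq_zero_iff two_ne_zero |>.1 (le_antisymm (by
      linarith [sq s, sq (r 0), sq (r 1), sq (s + r 1 - d 1), sq (r 0 - d 0), sq (g 0 - s),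
        sq (g 2), sq (h 0 - r 1), sq (h 1 + r 0), sq (h 2)]) (sq _))
    have y8 : g 2 = 0 := pow_eq_zero_iff two_ne_zero |>.1 (le_antisymm (by
      linarith [sq s, sq (r 0), sq (r 1), sq (s + r 1 - d 1), sq (r 0 - d 0), sq (g 0 - s),
        sq (g 1), sq (h 0 - r 1), sq (h 1 + r 0), sq (h 2)]) (sq _))
    have y9 : h 0 - r 1 = 0 := pow_eq_zero_iff two_ne_zero |>.1 (le_antisymm (by
      linarith [sq s, sq (r 0), sq (r 1), sq (s + r 1 - d 1), sq (r 0 - d 0), sq (g 0 - s),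
        sq (g 1), sq (g 2), sq (h 1 + r 0), sq (h 2)]) (sq _))
    have y10 : h 1 + r 0 = 0 := pow_eq_zero_iff two_ne_zero |>.1 (le_antisymm (by
      linarith [sq s, sq (r 0), sq (r 1), sq (s + r 1 - d 1), sq (r 0 - d 0), sq (g 0 - s),
        sq (g 1), sq (g 2), sq (h 0 - r 1), sq (h 2)]) (sq _))
    have y11 : h 2 = 0 := pow_eq_zero_iff two_ne_zero |>.1 (le_antisymm (by
      linarith [sq s, sq (r 0), sq (r 1), sq (s + r 1 - d 1), sq (r 0 - d 0), sq (g 0 - s),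
        sq (g 1), sq (g 2), sq (h 0 - r 1), sq (h 1 + r 0)]) (sq _))
    have w1 : d 1 = 0 := by rw [y1, y3] at y4; linarith
    have w2 : d 0 = 0 := by rw [y2] at y5; linarith
    have w3 : g 0 = 0 := by rw [y1] at y6; linarith
    have w4 : h 0 = 0 := by rw [y3] at y9; linarith
    have w5 : h 1 = 0 := by rw [y2] at y10; linarith
    rw [y1, y2, y3, w1, w2, w3, y7, y8, w4, w5, y11] at hq
    norm_num at hq
  · have he2 : 0 < e ^ 2 := by positivity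
    have h1 : 0 < e ^ 2 * ((O 2 0 + O 2 1) ^ 2 + 1 / 32 * k4 (O 2)) := mul_pos he2 hS
    have h2 : (0 : ℝ) ≤ s ^ 2 + (r 0 ^ 2 + r 1 ^ 2) + ((s + r 1 - d 1) ^ 2 + (r 0 - d 0) ^ 2) +
      3 * (((g 0 - s) ^ 2 + g 1 ^ 2 + g 2 ^ 2) + ((h 0 - r 1) ^ 2 + (h 1 + r 0) ^ 2 + h 2 ^ 2) +
        ((g 0 + h 0 - 3 * s - 3 * r 1 + d 1) ^ 2 +
          (g 1 + h 1 + 3 * r 0 - d 0 + e * (O 2 0 + O 2 1)) ^ 2 + (g 2 + h 2) ^ 2)) := by
      positivity
    nlinarith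

theorem HH_pos : ∃ μ0 : ℝ, 0 < μ0 ∧ ∀ μ, |μ| ≤ μ0 → ∀ y ∈ K0, 0 < HH (μ, y) := by
  have h1 : ∀ᶠ μ : ℝ in 𝓝 0, ∀ y ∈ K0, 0 < HH (μ, y) := by
    refine isCompact_K0.eventually_forall_of_forall_eventually fun y hy => ?_
    exact cont_HH.continuousAt.eventually (lt_mem_nhds (HH_zero_pos hy))
  obtain ⟨ε, hε, h2⟩ := Metric.eventually_nhds_iff.1 h1
  refine ⟨ε / 2, by positivity, fun μ hμ y hy => h2 ?_ y hy⟩
  rw [Real.dist_eq, sub_zero]
  linarith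

/-- normalisation of a point -/
def nrm (t : ℝ) (O : Fin 3 → V ℝ) (e s : ℝ) (r d : V ℝ) (G : V6 ℝ) : YY :=
  (O, (e / t, s / t), (t⁻¹ • r, t⁻¹ • d, t⁻¹ • G.1, t⁻¹ • G.2))

theorem PR_nrm {t : ℝ} (ht : t ≠ 0) (μ k e s : ℝ) (O : Fin 3 → V ℝ) (r d : V ℝ) (G : V6 ℝ) :
    PR (μ, k, nrm t O e s r d G) t = PP (Dr μ (t ^ 2 * k) e O) ![1, 0, 0] (![0, 0, 1], r)
      (![0, -s, 0], ![0, 0, 1] + d) G := by
  have h1 : t * (e / t) = e := by field_simp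
  have h2 : t * (s / t) = s := by field_simp
  have h3 : ∀ v : V ℝ, t • (t⁻¹ • v) = v := fun v => by rw [smul_smul, mul_inv_cancel₀ ht, one_smul]
  simp only [PR, nrm, h1, h2, h3]

theorem essq_nrm {t : ℝ} (ht : t ≠ 0) (e s : ℝ) (O : Fin 3 → V ℝ) (r d : V ℝ) (G : V6 ℝ)
    (h : essq (O, (e, s), (r, d, G.1, G.2)) = t ^ 2) : essq (nrm t O e s r d G) = 1 := by
  simp only [essq, nrm, nq, dt, Pi.smul_apply, smul_eq_mul] at h ⊢
  field_simp
  linarith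

theorem small_bounds {τ e s : ℝ} {r d : V ℝ} {G : V6 ℝ} {O : Fin 3 → V ℝ} (hτ : τ ≤ 1 / 8)
    (he : |e| < τ) (h1 : dt r (![0, 0, 1] + d) = 0)
    (h2 : dt (![0, 0, 1] + d) (![0, 0, 1] + d) = 1) (hs : SmallPt τ r d s G) {t : ℝ} (ht : 0 ≤ t)
    (h : essq (O, (e, s), (r, d, G.1, G.2)) = t ^ 2) :
    t < 4 * τ ∧ |r 2| ≤ t ∧ |d 2| ≤ t ∧ |r 2| ≤ t ^ 2 ∧ |d 2| ≤ t ^ 2 := by
  obtain ⟨a1, a2, a3, a4, a5⟩ := hs
  have hτ0 : 0 < τ := (abs_nonneg e).trans_lt he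
  have sqlt : ∀ a : ℝ, |a| < τ → a ^ 2 < τ ^ 2 := by
    intro a ha
    rw [← sq_abs a]
    exact pow_lt_pow_left₀ ha (abs_nonneg _) two_ne_zero
  have mslt : ∀ a : ℝ, |a| < τ → a * a < τ ^ 2 := by
    intro a ha
    rw [← pow_two]
    exact sqlt a ha
  simp only [essq, nq, dt] at h
  have ht1 : t < 4 * τ := by
    have : t ^ 2 < (4 * τ) ^ 2 := by
      nlinarith [sqlt e he, sqlt s a3, sqlt _ (a1 0), sqlt _ (a1 1), sqlt _ (a2 0), sqlt _ (a2 1),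
        mslt _ (a4 0), mslt _ (a4 1), mslt _ (a4 2), mslt _ (a5 0), mslt _ (a5 1), mslt _ (a5 2)]
    exact lt_of_pow_lt_pow_left₀ 2 (by positivity) this
  have ht2 : t ≤ 1 := by linarith
  have ht3 : t ^ 2 ≤ t := by nlinarith
  have hd2 := a2 2
  rw [abs_lt] at hd2
  simp [dt, Matrix.vecHead, Matrix.vecTail] at h1 h2
  have hT : r 0 ^ 2 + r 1 ^ 2 + (d 0 ^ 2 + d 1 ^ 2) ≤ t ^ 2 := by
    nlinarith [sq_nonneg e, sq_nonneg s, mul_self_nonneg (G.1 0), mul_self_nonneg (G.1 1),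
      mul_self_nonneg (G.1 2), mul_self_nonneg (G.2 0), mul_self_nonneg (G.2 1),
      mul_self_nonneg (G.2 2)]
  have k1 : |r 2| ≤ t ^ 2 := by
    have e1 : r 2 * (1 + d 2) = -(r 0 * d 0 + r 1 * d 1) := by linarith
    have e2 : |r 2| * (1 + d 2) ≤ t ^ 2 / 2 := by
      have : |r 2| * (1 + d 2) = |r 2 * (1 + d 2)| := by
        rw [abs_mul, abs_of_nonneg (by linarith : 0 ≤ 1 + d 2)]
      rw [this, e1, abs_neg, abs_le]
      constructor <;> nlinarith [sq_nonneg (r 0 + d 0), sq_nonneg (r 1 + d 1),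
        sq_nonneg (r 0 - d 0), sq_nonneg (r 1 - d 1)]
    nlinarith [abs_nonneg (r 2)]
  have k2 : |d 2| ≤ t ^ 2 := by
    have e1 : d 2 * (2 + d 2) = -(d 0 ^ 2 + d 1 ^ 2) := by nlinarith
    have e2 : |d 2| * (2 + d 2) ≤ t ^ 2 := by
      have : |d 2| * (2 + d 2) = |d 2 * (2 + d 2)| := by
        rw [abs_mul, abs_of_nonneg (by linarith : 0 ≤ 2 + d 2)]
      rw [this, e1, abs_neg, abs_of_nonneg (by positivity)]
      nlinarith [sq_nonneg (r 0), sq_nonneg (r 1)]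
    nlinarith [abs_nonneg (d 2)]
  exact ⟨ht1, k1.trans ht3, k2.trans ht3, k1, k2⟩

theorem nrm_mem {t : ℝ} (ht : 0 < t) {e s : ℝ} {O : Fin 3 → V ℝ} {r d : V ℝ} {G : V6 ℝ}
    (hO : Rotn O) (h : essq (O, (e, s), (r, d, G.1, G.2)) = t ^ 2) (h1 : |r 2| ≤ t)
    (h2 : |d 2| ≤ t) : nrm t O e s r d G ∈ K0 := by
  refine ⟨hO, essq_nrm ht.ne' e s O r d G h, ?_, ?_⟩
  · show |t⁻¹ * r 2| ≤ 1
    rw [abs_mul, abs_inv, abs_of_pos ht, inv_mul_le_iff₀ ht, mul_one]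
    exact h1
  · show |t⁻¹ * d 2| ≤ 1
    rw [abs_mul, abs_inv, abs_of_pos ht, inv_mul_le_iff₀ ht, mul_one]
    exact h2

theorem essq_nonneg (y : YY) : 0 ≤ essq y := by
  have h1 := nq_nonneg y.2.2.2.2.1
  have h2 := nq_nonneg y.2.2.2.2.2
  unfold essq
  positivity

theorem loc0 : LOC0 := by
  obtain ⟨μ0, hμ0, hH⟩ := HH_pos
  have hS : IsCompact ((fun p : ℝ × YY => ((p.1, 0, p.2) : Th)) ''
      (Set.Icc (-μ0) μ0 ×ˢ (K0 ∩ {y : YY | y.2.1.1 = 0}))) := by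
    refine IsCompact.image ?_ (by fun_prop)
    refine isCompact_Icc.prod (isCompact_K0.inter_right (isClosed_eq ?_ continuous_const))
    fun_prop
  obtain ⟨t0, ht0, hray⟩ := ray_pos hS (by
    rintro _ ⟨⟨μ, y⟩, ⟨hμ, hy, hye⟩, rfl⟩
    have h := hH μ (abs_le.2 hμ) y hy
    have hye' : y.2.1.1 = 0 := hye
    simp only [HH, hye'] at h
    simp only
    linarith)
  refine ⟨min μ0 (min (1 / 8) (t0 / 4)), by positivity, ?_⟩
  intro μ O r d s G hμ hO h1 h2 hsm hne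
  have hτ1 : min μ0 (min (1 / 8) (t0 / 4)) ≤ 1 / 8 := (min_le_right _ _).trans (min_le_left _ _)
  have hτ2 : min μ0 (min (1 / 8) (t0 / 4)) ≤ t0 / 4 := (min_le_right _ _).trans (min_le_right _ _)
  have hτ0 : 0 < min μ0 (min (1 / 8) (t0 / 4)) := by positivity
  obtain ⟨t, ht, htt⟩ : ∃ t : ℝ, 0 ≤ t ∧ essq (O, ((0 : ℝ), s), (r, d, G.1, G.2)) = t ^ 2 :=
    ⟨_, Real.sqrt_nonneg _, (Real.sq_sqrt (essq_nonneg _)).symm⟩
  obtain ⟨b1, b2, b3, b4, b5⟩ := small_bounds hτ1 (by rw [abs_zero]; exact hτ0) h1 h2 hsm ht htt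
  have htp : 0 < t := by
    rcases ht.lt_or_eq with h | h
    · exact h
    · exfalso
      rw [← h] at b4 b5 htt
      simp only [essq, nq, dt] at htt
      have hr2 : r 2 = 0 := abs_eq_zero.1 (le_antisymm (by simpa using b4) (abs_nonneg _))
      have hd2 : d 2 = 0 := abs_eq_zero.1 (le_antisymm (by simpa using b5) (abs_nonneg _))
      have sq := fun a : ℝ => sq_nonneg a
      have msn := fun a : ℝ => mul_self_nonneg a
      have zs : ∀ a : ℝ, a ^ 2 ≤ 0 → a = 0 := fun a ha =>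
        pow_eq_zero_iff two_ne_zero |>.1 (le_antisymm ha (sq_nonneg a))
      have q1 : s = 0 := zs _ (by
        nlinarith [sq s, sq (r 0), sq (r 1), sq (d 0), sq (d 1), msn (G.1 0), msn (G.1 1), msn (G.1 2), msn (G.2 0), msn (G.2 1), msn (G.2 2)])
      have q2 : r 0 = 0 := zs _ (by
        nlinarith [sq s, sq (r 0), sq (r 1), sq (d 0), sq (d 1), msn (G.1 0), msn (G.1 1), msn (G.1 2), msn (G.2 0), msn (G.2 1), msn (G.2 2)])
      have q3 : r 1 = 0 := zs _ (by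
        nlinarith [sq s, sq (r 0), sq (r 1), sq (d 0), sq (d 1), msn (G.1 0), msn (G.1 1), msn (G.1 2), msn (G.2 0), msn (G.2 1), msn (G.2 2)])
      have q4 : d 0 = 0 := zs _ (by
        nlinarith [sq s, sq (r 0), sq (r 1), sq (d 0), sq (d 1), msn (G.1 0), msn (G.1 1), msn (G.1 2), msn (G.2 0), msn (G.2 1), msn (G.2 2)])
      have q5 : d 1 = 0 := zs _ (by
        nlinarith [sq s, sq (r 0), sq (r 1), sq (d 0), sq (d 1), msn (G.1 0), msn (G.1 1), msn (G.1 2), msn (G.2 0), msn (G.2 1), msn (G.2 2)])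
      have q6 : G.1 0 = 0 := zs _ (by
        nlinarith [sq s, sq (r 0), sq (r 1), sq (d 0), sq (d 1), msn (G.1 0), msn (G.1 1), msn (G.1 2), msn (G.2 0), msn (G.2 1), msn (G.2 2)])
      have q7 : G.1 1 = 0 := zs _ (by
        nlinarith [sq s, sq (r 0), sq (r 1), sq (d 0), sq (d 1), msn (G.1 0), msn (G.1 1), msn (G.1 2), msn (G.2 0), msn (G.2 1), msn (G.2 2)])
      have q8 : G.1 2 = 0 := zs _ (by
        nlinarith [sq s, sq (r 0), sq (r 1), sq (d 0), sq (d 1), msn (G.1 0), msn (G.1 1), msn (G.1 2), msn (G.2 0), msn (G.2 1), msn (G.2 2)])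
      have q9 : G.2 0 = 0 := zs _ (by
        nlinarith [sq s, sq (r 0), sq (r 1), sq (d 0), sq (d 1), msn (G.1 0), msn (G.1 1), msn (G.1 2), msn (G.2 0), msn (G.2 1), msn (G.2 2)])
      have q10 : G.2 1 = 0 := zs _ (by
        nlinarith [sq s, sq (r 0), sq (r 1), sq (d 0), sq (d 1), msn (G.1 0), msn (G.1 1), msn (G.1 2), msn (G.2 0), msn (G.2 1), msn (G.2 2)])
      have q11 : G.2 2 = 0 := zs _ (by
        nlinarith [sq s, sq (r 0), sq (r 1), sq (d 0), sq (d 1), msn (G.1 0), msn (G.1 1), msn (G.1 2), msn (G.2 0), msn (G.2 1), msn (G.2 2)])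
      exact hne ⟨V_ext q2 q3 hr2, V_ext q4 q5 hd2, q1,
        Prod.ext (V_ext q6 q7 q8) (V_ext q9 q10 q11)⟩
  have hmem := nrm_mem htp hO htt b2 b3
  have hpos := hray (μ, 0, nrm t O 0 s r d G) ⟨(μ, nrm t O 0 s r d G),
    ⟨⟨(abs_le.1 (hμ.le.trans (min_le_left _ _))).1, (abs_le.1 (hμ.le.trans (min_le_left _ _))).2⟩,
      hmem, by simp [nrm]⟩, rfl⟩ t htp (by linarith)
  rw [PR_nrm htp.ne', mul_zero] at hpos
  exact hpos

theorem loc1 : LOC1 := by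
  obtain ⟨μ0, hμ0, hH⟩ := HH_pos
  refine ⟨μ0, hμ0, fun μ hμ hμ' => ?_⟩
  have hS : IsCompact ((fun y : YY => ((μ, y.2.1.1 ^ 2 / (128 * μ ^ 2), y) : Th)) '' K0) :=
    isCompact_K0.image (by fun_prop)
  obtain ⟨t0, ht0, hray⟩ := ray_pos hS (by
    rintro _ ⟨y, hy, rfl⟩
    have h := hH μ (by rw [abs_of_pos hμ]; exact hμ'.le) y hy
    rw [c2_k hy.1]
    simp only [HH] at h
    have e1 : 4 * (μ ^ 2 * (y.2.1.1 ^ 2 / (128 * μ ^ 2)) * k4 (y.1 2)) =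
        1 / 32 * (y.2.1.1 ^ 2 * k4 (y.1 2)) := by
      field_simp
      ring
    rw [e1]
    exact h)
  refine ⟨min (1 / 8) (t0 / 4), by positivity, ?_⟩
  intro e O r d s G he he' hO h1 h2 hsm
  have hτ1 : min (1 / 8) (t0 / 4) ≤ 1 / 8 := min_le_left _ _
  have hτ2 : min (1 / 8) (t0 / 4) ≤ t0 / 4 := min_le_right _ _
  obtain ⟨t, ht, htt⟩ : ∃ t : ℝ, 0 ≤ t ∧ essq (O, (e, s), (r, d, G.1, G.2)) = t ^ 2 :=
    ⟨_, Real.sqrt_nonneg _, (Real.sq_sqrt (essq_nonneg _)).symm⟩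
  obtain ⟨b1, b2, b3, -, -⟩ := small_bounds hτ1 (by rw [abs_of_pos he]; exact he') h1 h2 hsm ht htt
  have htp : 0 < t := by
    rcases ht.lt_or_eq with h | h
    · exact h
    · exfalso
      rw [← h] at htt
      have h1 := nq_nonneg G.1
      have h2 := nq_nonneg G.2
      simp only [essq] at htt
      have : 0 < e ^ 2 := by positivity
      nlinarith [sq_nonneg s, sq_nonneg (r 0), sq_nonneg (r 1), sq_nonneg (d 0), sq_nonneg (d 1)]
  have hmem := nrm_mem htp hO htt b2 b3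
  have hpos := hray (μ, (e / t) ^ 2 / (128 * μ ^ 2), nrm t O e s r d G)
    ⟨nrm t O e s r d G, hmem, rfl⟩ t htp (by linarith)
  rw [PR_nrm htp.ne'] at hpos
  have e1 : t ^ 2 * ((e / t) ^ 2 / (128 * μ ^ 2)) = e ^ 2 / (128 * μ ^ 2) := by
    field_simp
  rw [e1] at hpos
  exact hpos

end HopfPP
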