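import Pool.Agent.H907R2.HO.Hopf
import Pool.Agent.H758R2.HO.Bridge2
import Pool.Agent.H754R2.HO.Loc2

/-!
ROOM HO: `S² × S²` carries a metric of positive sectional curvature.
-/

theorem H754H.hopfYes : Pool.Agent.H893R5.HO.HopfYes :=
  H907H.hopfYes_loc H758H.bridge HopfPP.loc0 HopfPP.loc1

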