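import Pool.Agent.H754R2.HO.Rot

/-!
ROOM HO (helper754): `PK` is a quadratic form in the bivector `a ∧ b`.
-/

open Metric
open scoped Topology

noncomputable section

namespace H754H

open Pool.Agent.H821R3 H907H H758H


variable (K : A6 → A6 →L[ℝ] A6) (K1 : A6 → A6 →L[ℝ] A6 →L[ℝ] A6)
  (K2 : A6 → A6 →L[ℝ] A6 →L[ℝ] A6 →L[ℝ] A6)

/-- the second order term -/
def T2 (z a b c d : A6) : ℝ :=
  F2 K K1 K2 c d z (WK K z b) (WK K z a) (W1 K K1 z (WK K z a) b)

/-- the first order term -/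
def T1 (z c d c' d' : A6) : ℝ :=
  pr (rot (F1 K K1 c d z) z) (K z (rot (F1 K K1 c' d' z) z))

/-- the bracket -/
def BB (z a b : A6) : A6 := W1 K K1 z (WK K z a) b - W1 K K1 z (WK K z b) a

theorem PK_T (z a b γ : A6) : PK K K1 K2 z a b γ =
    1 / 2 * T2 K K1 K2 z a a b b + 1 / 2 * T2 K K1 K2 z b b a a -
      1 / 2 * (T2 K K1 K2 z a b a b + T2 K K1 K2 z b a a b) -
      1 / 4 * T1 K K1 z a a b b + 1 / 4 * T1 K K1 z a b a b +
      3 / 4 * (pr (J z γ) (K z (J z γ)) - 2 * pr γ (BB K K1 z a b)) := rfl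

section lin

variable {K K1 K2}

theorem T2_lin1 (z a a' b c d : A6) (p q : ℝ) :
    T2 K K1 K2 z (p • a + q • a') b c d = p * T2 K K1 K2 z a b c d + q * T2 K K1 K2 z a' b c d := by
  simp only [T2, F2, F1, W1, WK_apply, map_add, map_smul, map_neg, _root_.add_apply,
    _root_.smul_apply, _root_.neg_apply, ← prB_apply, smul_eq_mul]
  ring

theorem T2_lin2 (z a b b' c d : A6) (p q : ℝ) :
    T2 K K1 K2 z a (p • b + q • b') c d = p * T2 K K1 K2 z a b c d + q * T2 K K1 K2 z a b' c d := by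
  simp only [T2, F2, F1, W1, WK_apply, map_add, map_smul, map_neg, _root_.add_apply,
    _root_.smul_apply, _root_.neg_apply, ← prB_apply, smul_eq_mul]
  ring

theorem T2_lin3 (z a b c c' d : A6) (p q : ℝ) :
    T2 K K1 K2 z a b (p • c + q • c') d = p * T2 K K1 K2 z a b c d + q * T2 K K1 K2 z a b c' d := by
  simp only [T2, F2, F1, map_add, map_smul, map_neg, _root_.add_apply,
    _root_.smul_apply, _root_.neg_apply, ← prB_apply, smul_eq_mul]
  ring

theorem T2_lin4 (z a b c d d' : A6) (p q : ℝ) :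
    T2 K K1 K2 z a b c (p • d + q • d') = p * T2 K K1 K2 z a b c d + q * T2 K K1 K2 z a b c d' := by
  simp only [T2, F2, F1, map_add, map_smul, map_neg, _root_.add_apply,
    _root_.smul_apply, _root_.neg_apply, ← prB_apply, smul_eq_mul]
  ring

theorem F1_lin1 (z c c' d : A6) (p q : ℝ) :
    F1 K K1 (p • c + q • c') d z = fun ζ => p * F1 K K1 c d z ζ + q * F1 K K1 c' d z ζ := by
  funext ζ
  simp only [F1, map_add, map_smul, map_neg, _root_.add_apply,
    _root_.smul_apply, _root_.neg_apply, ← prB_apply, smul_eq_mul]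
  ring

theorem F1_lin2 (z c d d' : A6) (p q : ℝ) :
    F1 K K1 c (p • d + q • d') z = fun ζ => p * F1 K K1 c d z ζ + q * F1 K K1 c d' z ζ := by
  funext ζ
  simp only [F1, map_add, map_smul, map_neg, _root_.add_apply,
    _root_.smul_apply, _root_.neg_apply, ← prB_apply, smul_eq_mul]
  ring

theorem rot_lin (D D' : A6 → ℝ) (z : A6) (p q : ℝ) :
    rot (fun ζ => p * D ζ + q * D' ζ) z = p • rot D z + q • rot D' z := by
  refine Prod.ext (ext3 ?_ ?_ ?_) (ext3 ?_ ?_ ?_) <;> simp [rot]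

theorem T1_lin1 (z c c' d e f : A6) (p q : ℝ) :
    T1 K K1 z (p • c + q • c') d e f = p * T1 K K1 z c d e f + q * T1 K K1 z c' d e f := by
  simp only [T1, F1_lin1, rot_lin, pr_add_left, pr_smul_left]

theorem T1_lin2 (z c d d' e f : A6) (p q : ℝ) :
    T1 K K1 z c (p • d + q • d') e f = p * T1 K K1 z c d e f + q * T1 K K1 z c d' e f := by
  simp only [T1, F1_lin2, rot_lin, pr_add_left, pr_smul_left]

theorem T1_lin3 (z c d e e' f : A6) (p q : ℝ) :
    T1 K K1 z c d (p • e + q • e') f = p * T1 K K1 z c d e f + q * T1 K K1 z c d e' f := by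
  simp only [T1, F1_lin1, rot_lin, map_add, map_smul, pr_add_right, pr_smul_right]

theorem T1_lin4 (z c d e f f' : A6) (p q : ℝ) :
    T1 K K1 z c d e (p • f + q • f') = p * T1 K K1 z c d e f + q * T1 K K1 z c d e f' := by
  simp only [T1, F1_lin2, rot_lin, map_add, map_smul, pr_add_right, pr_smul_right]

theorem BB_lin (z a b : A6) (p q r s : ℝ) :
    BB K K1 z (p • a + q • b) (r • a + s • b) = (p * s - q * r) • BB K K1 z a b := by
  simp only [BB, W1, WK_apply, map_add, map_smul, map_neg, _root_.add_apply,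
    _root_.smul_apply, _root_.neg_apply]
  module

/-- symmetry of the matrix and its derivatives -/
structure SymK (K : A6 → A6 →L[ℝ] A6) (K1 : A6 → A6 →L[ℝ] A6 →L[ℝ] A6)
    (K2 : A6 → A6 →L[ℝ] A6 →L[ℝ] A6 →L[ℝ] A6) : Prop where
  s0 : ∀ z u v, pr u (K z v) = pr v (K z u)
  s1 : ∀ z ζ u v, pr u (K1 z ζ v) = pr v (K1 z ζ u)
  s2 : ∀ z ζ η u v, pr u (K2 z ζ η v) = pr v (K2 z ζ η u)
  c2 : ∀ z ζ η, K2 z ζ η = K2 z η ζ

theorem F1_symm (h : SymK K K1 K2) (c d z : A6) : F1 K K1 c d z = F1 K K1 d c z := by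
  funext ζ
  simp only [F1]
  rw [h.s0 z (J ζ c), h.s1 z ζ (J z c), h.s0 z (J z c)]
  ring

theorem T2_symm (h : SymK K K1 K2) (z a b c d : A6) :
    T2 K K1 K2 z a b c d = T2 K K1 K2 z a b d c := by
  simp only [T2, F2]
  generalize WK K z a = X
  generalize WK K z b = Y
  generalize W1 K K1 z X b = θ
  rw [F1_symm h c d, h.s1 z X (J Y c), h.s0 z (J Y c), h.s1 z Y (J X c), h.s2 z X Y (J z c),
    h.s1 z Y (J z c), h.s0 z (J X c), h.s1 z X (J z c)]
  ring

theorem T1_symm1 (h : SymK K K1 K2) (z c d e f : A6) :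
    T1 K K1 z c d e f = T1 K K1 z d c e f := by
  simp only [T1]
  rw [F1_symm h c d]

theorem T1_symm2 (h : SymK K K1 K2) (z c d e f : A6) :
    T1 K K1 z c d e f = T1 K K1 z c d f e := by
  simp only [T1]
  rw [F1_symm h e f]

theorem T1_symm3 (h : SymK K K1 K2) (z c d e f : A6) :
    T1 K K1 z c d e f = T1 K K1 z e f c d := by
  simp only [T1]
  rw [h.s0]

/-- `PK` is a quadratic form in `a ∧ b`. -/
theorem PK_GL2 (h : SymK K K1 K2) (z a b γ : A6) (p q r s : ℝ) :
    PK K K1 K2 z (p • a + q • b) (r • a + s • b) ((p * s - q * r) • γ) =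
      (p * s - q * r) ^ 2 * PK K K1 K2 z a b γ := by
  rw [PK_T, PK_T, BB_lin]
  simp only [T2_lin1, T2_lin2, T2_lin3, T2_lin4, T1_lin1, T1_lin2, T1_lin3, T1_lin4, map_smul,
    pr_smul_left, pr_smul_right]
  rw [T2_symm h z a a b a, T2_symm h z a b b a, T2_symm h z b a b a, T2_symm h z b b b a,
    T1_symm1 h z b a a a, T1_symm1 h z b a b b, T1_symm1 h z b a a b, T1_symm1 h z b a b a,
    T1_symm2 h z a a b a, T1_symm2 h z b b b a, T1_symm2 h z a b b a,
    T1_symm3 h z b b a a, T1_symm3 h z a b a a, T1_symm3 h z b b a b]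
  ring

end lin

end H754H
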