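import Pool.Agent.H754R2.HO.Near

/-!
ROOM HO (helper754): local positivity in the slice.
-/

open H563H Filter Topology

noncomputable section

namespace HopfPP

/-- rotation, `(e, s)`, `(r, d, g, h)` -/
abbrev YY : Type := (Fin 3 → V ℝ) × (ℝ × ℝ) × (V ℝ × V ℝ × V ℝ × V ℝ)

/-- `(μ, k, y)` -/
abbrev Th : Type := ℝ × ℝ × YY

/-- the truncated series at a parameter -/
def PT (θ : Th) : T3 ℝ :=
  PP (DT (Wr θ.1 θ.2.2.1) (Qr θ.2.1 θ.2.2.1) θ.2.2.2.1.1 (vr θ.2.2.1)) (tv ![1, 0, 0] 0 0)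
    (aT θ.2.2.2.2.1) (bT θ.2.2.2.1.2 θ.2.2.2.2.2.1) (gTT θ.2.2.2.2.2.2.1 θ.2.2.2.2.2.2.2)

theorem PT_c0 (θ : Th) : (PT θ).c0 = 0 := (c01_eq _ _ _ _ _ _ _ _ _ _ _ _ _ _).1

theorem PT_c1 (θ : Th) : (PT θ).c1 = 0 := (c01_eq _ _ _ _ _ _ _ _ _ _ _ _ _ _).2

/-- the real value at the point of the ray with parameter `t` -/
def PR (θ : Th) (t : ℝ) : ℝ :=
  PP (Dr θ.1 (t ^ 2 * θ.2.1) (t * θ.2.2.2.1.1) θ.2.2.1) ![1, 0, 0]
    (![0, 0, 1], t • θ.2.2.2.2.1) (![0, -(t * θ.2.2.2.1.2), 0], ![0, 0, 1] + t • θ.2.2.2.2.2.1)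
    (t • θ.2.2.2.2.2.2.1, t • θ.2.2.2.2.2.2.2)

theorem cont_Wr (i j : Fin 3) : Continuous fun θ : Th => Wr θ.1 θ.2.2.1 i j := by
  fin_cases i <;> fin_cases j <;> simp [Wr, symm3] <;> fun_prop

theorem cont_Qr (i j : Fin 3) : Continuous fun θ : Th => Qr θ.2.1 θ.2.2.1 i j := by
  fin_cases i <;> fin_cases j <;> simp [Qr, symm3] <;> fun_prop

theorem cont_vr (i : Fin 3) : Continuous fun θ : Th => vr θ.2.2.1 i := by
  fin_cases i <;> simp [vr] <;> fun_prop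

/-! ### continuity of the second order coefficient -/

/-- vectors of continuous truncated series -/
def cv (a b c : Th → V ℝ) (ha : ∀ i, Continuous fun θ => a θ i) (hb : ∀ i, Continuous fun θ => b θ i)
    (hc : ∀ i, Continuous fun θ => c θ i) : V (contT3 Th) :=
  fun i => ⟨fun θ => ⟨a θ i, b θ i, c θ i⟩, ha i, hb i, hc i⟩

theorem cz (i : Fin 3) : Continuous fun _ : Th => (0 : V ℝ) i := continuous_const

theorem ck (a : V ℝ) (i : Fin 3) : Continuous fun _ : Th => a i := continuous_const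

/-- the polynomial over the ring of continuous truncated series -/
def PC : contT3 Th :=
  PP ⟨fun i => cv (fun θ => Wr θ.1 θ.2.2.1 i) (fun _ => 0) (fun _ => 0) (cont_Wr i) cz cz,
      fun i => cv (fun _ => 0) (fun _ => 0) (fun θ => Qr θ.2.1 θ.2.2.1 i) cz cz (cont_Qr i),
      ⟨fun θ => ⟨0, θ.2.2.2.1.1, 0⟩, continuous_const, by fun_prop, continuous_const⟩,
      cv (fun θ => vr θ.2.2.1) (fun _ => 0) (fun _ => 0) cont_vr cz cz⟩
    (cv (fun _ => ![1, 0, 0]) (fun _ => 0) (fun _ => 0) (ck _) cz cz)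
    (cv (fun _ => ![0, 0, 1]) (fun _ => 0) (fun _ => 0) (ck _) cz cz,
      cv (fun _ => 0) (fun θ => θ.2.2.2.2.1) (fun _ => 0) cz (fun i => by fun_prop) cz)
    (cv (fun _ => 0) (fun θ => ![0, -θ.2.2.2.1.2, 0]) (fun _ => 0) cz
        (fun i => by fin_cases i <;> simp <;> fun_prop) cz,
      cv (fun _ => ![0, 0, 1]) (fun θ => θ.2.2.2.2.2.1) (fun _ => 0) (ck _) (fun i => by fun_prop) cz)
    (cv (fun _ => 0) (fun θ => θ.2.2.2.2.2.2.1) (fun _ => 0) cz (fun i => by fun_prop) cz,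
      cv (fun _ => 0) (fun θ => θ.2.2.2.2.2.2.2) (fun _ => 0) cz (fun i => by fun_prop) cz)

theorem evT_PC (θ : Th) : evT θ PC = PT θ := by
  rw [PC, map_PP]
  rfl

theorem cont_c2 : Continuous fun θ => (PT θ).c2 := by
  have h := contT3_c2 PC
  simp only [evT_PC] at h
  exact h

/-! ### the real polynomial -/

theorem bdd {S : Set Th} (hS : IsCompact S) {f : Th → ℝ} (hf : Continuous f) : Bdd S f :=
  Bdd.of_continuousOn hS hf.continuousOn

/-- elements of the approximation ring -/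
def av1 {S : Set Th} (hS : IsCompact S) (a b c : Th → ℝ) (ha : Continuous a) (hb : Continuous b)
    (hc : Continuous c) : approxRing S :=
  (Approx.of_val (c := fun θ => (⟨a θ, b θ, c θ⟩ : T3 ℝ)) (bdd hS ha) (bdd hS hb) (bdd hS hc)).mk'

/-- vectors over the approximation ring -/
def av {S : Set Th} (hS : IsCompact S) (a b c : Th → V ℝ) (ha : ∀ i, Continuous fun θ => a θ i)
    (hb : ∀ i, Continuous fun θ => b θ i) (hc : ∀ i, Continuous fun θ => c θ i) :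
    V (approxRing S) := fun i => av1 hS (fun θ => a θ i) (fun θ => b θ i) (fun θ => c θ i)
      (ha i) (hb i) (hc i)

theorem evF_av1 {S : Set Th} (hS : IsCompact S) (a b c : Th → ℝ) (ha : Continuous a)
    (hb : Continuous b) (hc : Continuous c) (θ : Th) (t : ℝ) :
    evF S θ t (av1 hS a b c ha hb hc) = a θ + b θ * t + c θ * t ^ 2 := rfl

theorem evF_av {S : Set Th} (hS : IsCompact S) (a b c : Th → V ℝ)
    (ha : ∀ i, Continuous fun θ => a θ i) (hb : ∀ i, Continuous fun θ => b θ i)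
    (hc : ∀ i, Continuous fun θ => c θ i) (θ : Th) (t : ℝ) :
    mapV (evF S θ t) (av hS a b c ha hb hc) = a θ + t • b θ + t ^ 2 • c θ := by
  funext i
  simp only [mapV, av, evF_av1, Pi.add_apply, Pi.smul_apply, smul_eq_mul]
  ring

theorem evC_av {S : Set Th} (hS : IsCompact S) (a b c : Th → V ℝ)
    (ha : ∀ i, Continuous fun θ => a θ i) (hb : ∀ i, Continuous fun θ => b θ i)
    (hc : ∀ i, Continuous fun θ => c θ i) (θ : Th) :
    mapV (evC S θ) (av hS a b c ha hb hc) = tv (a θ) (b θ) (c θ) := rfl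

/-- the polynomial over the approximation ring -/
def PA {S : Set Th} (hS : IsCompact S) : approxRing S :=
  PP ⟨fun i => av hS (fun θ => Wr θ.1 θ.2.2.1 i) (fun _ => 0) (fun _ => 0) (cont_Wr i) cz cz,
      fun i => av hS (fun _ => 0) (fun _ => 0) (fun θ => Qr θ.2.1 θ.2.2.1 i) cz cz (cont_Qr i),
      av1 hS (fun _ => 0) (fun θ => θ.2.2.2.1.1) (fun _ => 0) continuous_const (by fun_prop)
        continuous_const,
      av hS (fun θ => vr θ.2.2.1) (fun _ => 0) (fun _ => 0) cont_vr cz cz⟩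
    (av hS (fun _ => ![1, 0, 0]) (fun _ => 0) (fun _ => 0) (ck _) cz cz)
    (av hS (fun _ => ![0, 0, 1]) (fun _ => 0) (fun _ => 0) (ck _) cz cz,
      av hS (fun _ => 0) (fun θ => θ.2.2.2.2.1) (fun _ => 0) cz (fun i => by fun_prop) cz)
    (av hS (fun _ => 0) (fun θ => ![0, -θ.2.2.2.1.2, 0]) (fun _ => 0) cz
        (fun i => by fin_cases i <;> simp <;> fun_prop) cz,
      av hS (fun _ => ![0, 0, 1]) (fun θ => θ.2.2.2.2.2.1) (fun _ => 0) (ck _) (fun i => by fun_prop)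
        cz)
    (av hS (fun _ => 0) (fun θ => θ.2.2.2.2.2.2.1) (fun _ => 0) cz (fun i => by fun_prop) cz,
      av hS (fun _ => 0) (fun θ => θ.2.2.2.2.2.2.2) (fun _ => 0) cz (fun i => by fun_prop) cz)

theorem evC_PA {S : Set Th} (hS : IsCompact S) (θ : Th) : evC S θ (PA hS) = PT θ := by
  rw [PA, map_PP]
  rfl

theorem evF_PA {S : Set Th} (hS : IsCompact S) (θ : Th) (t : ℝ) : evF S θ t (PA hS) = PR θ t := by
  rw [PA, map_PP, PR]
  congr 1
  · simp only [mapD, Dr, evF_av, evF_av1]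
    congr 1
    · funext i j
      simp
    · funext i j
      fin_cases i <;> fin_cases j <;> simp [Qr, symm3] <;> ring
    · ring
    · funext i
      simp
  · rw [evF_av]; simp
  · rw [map6, evF_av, evF_av]; simp
  · rw [map6, evF_av, evF_av]
    refine Prod.ext (V_ext ?_ ?_ ?_) (V_ext ?_ ?_ ?_) <;> simp [Matrix.vecHead, Matrix.vecTail]
  · rw [map6, evF_av, evF_av]; simp

/-- positivity near `t = 0` on a compact set of parameters -/
theorem ray_pos {S : Set Th} (hS : IsCompact S) (h : ∀ θ ∈ S, 0 < (PT θ).c2) :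
    ∃ t0 > 0, ∀ θ ∈ S, ∀ t, 0 < t → t < t0 → 0 < PR θ t := by
  obtain ⟨κ, hκ, hκ2⟩ : ∃ κ : ℝ, 0 < κ ∧ ∀ θ ∈ S, κ ≤ (PT θ).c2 := by
    rcases S.eq_empty_or_nonempty with he | hne
    · exact ⟨1, one_pos, fun θ hθ => by rw [he] at hθ; exact absurd hθ (Set.notMem_empty θ)⟩
    · obtain ⟨θ0, h0, hmin⟩ := hS.exists_isMinOn hne cont_c2.continuousOn
      exact ⟨_, h θ0 h0, fun θ hθ => hmin hθ⟩
  obtain ⟨t0, ht0, h3⟩ := approxRing_pos (PA hS) (fun θ _ => by rw [evC_PA]; exact PT_c0 θ)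
    (fun θ _ => by rw [evC_PA]; exact PT_c1 θ) hκ (fun θ hθ => by rw [evC_PA]; exact hκ2 θ hθ)
  refine ⟨t0, ht0, fun θ hθ t h1 h2 => ?_⟩
  rw [← evF_PA hS]
  exact h3 θ hθ t h1 h2

/-! ### the compact set -/

/-- the sum of squares of the essential variables -/
def essq (y : YY) : ℝ :=
  y.2.1.1 ^ 2 + y.2.1.2 ^ 2 + (y.2.2.1 0 ^ 2 + y.2.2.1 1 ^ 2) +
    (y.2.2.2.1 0 ^ 2 + y.2.2.2.1 1 ^ 2) + nq y.2.2.2.2.1 + nq y.2.2.2.2.2

/-- the compact set of directions -/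
def K0 : Set YY := {y | Rotn y.1 ∧ essq y = 1 ∧ |y.2.2.1 2| ≤ 1 ∧ |y.2.2.2.1 2| ≤ 1}

theorem cont_ij (i j : Fin 3) : Continuous fun y : YY => y.1 i j := by fun_prop

theorem isClosed_Rotn : IsClosed {y : YY | Rotn y.1} := by
  have e : {y : YY | Rotn y.1} = {y : YY | dt (y.1 0) (y.1 0) = 1} ∩ {y | dt (y.1 1) (y.1 1) = 1} ∩
      {y | dt (y.1 2) (y.1 2) = 1} ∩ {y | dt (y.1 0) (y.1 1) = 0} ∩ {y | dt (y.1 0) (y.1 2) = 0} ∩
      {y | dt (y.1 1) (y.1 2) = 0} ∩ {y | cx (y.1 0) (y.1 1) = y.1 2} ∩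
      {y | cx (y.1 1) (y.1 2) = y.1 0} ∩ {y | cx (y.1 2) (y.1 0) = y.1 1} := by
    ext y
    constructor
    · intro h
      exact ⟨⟨⟨⟨⟨⟨⟨⟨h.o00, h.o11⟩, h.o22⟩, h.o01⟩, h.o02⟩, h.o12⟩, h.c01⟩, h.c12⟩, h.c20⟩
    · rintro ⟨⟨⟨⟨⟨⟨⟨⟨h1, h2⟩, h3⟩, h4⟩, h5⟩, h6⟩, h7⟩, h8⟩, h9⟩
      exact ⟨h1, h2, h3, h4, h5, h6, h7, h8, h9⟩
  have cd : ∀ i j : Fin 3, Continuous fun y : YY => dt (y.1 i) (y.1 j) := by
    intro i j
    simp only [dt]
    fun_prop
  have cc : ∀ i j : Fin 3, Continuous fun y : YY => cx (y.1 i) (y.1 j) := by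
    intro i j
    refine continuous_pi fun l => ?_
    fin_cases l <;> simp [cx] <;> fun_prop
  have cr : ∀ i : Fin 3, Continuous fun y : YY => y.1 i := by
    intro i
    fun_prop
  rw [e]
  refine IsClosed.inter ?_ (isClosed_eq (cc 2 0) (cr 1))
  refine IsClosed.inter ?_ (isClosed_eq (cc 1 2) (cr 0))
  refine IsClosed.inter ?_ (isClosed_eq (cc 0 1) (cr 2))
  refine IsClosed.inter ?_ (isClosed_eq (cd 1 2) continuous_const)
  refine IsClosed.inter ?_ (isClosed_eq (cd 0 2) continuous_const)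
  refine IsClosed.inter ?_ (isClosed_eq (cd 0 1) continuous_const)
  refine IsClosed.inter ?_ (isClosed_eq (cd 2 2) continuous_const)
  exact IsClosed.inter (isClosed_eq (cd 0 0) continuous_const)
    (isClosed_eq (cd 1 1) continuous_const)

theorem cont_essq : Continuous essq := by
  unfold essq nq dt
  fun_prop

theorem abs_le_one_of_sq {a b : ℝ} (h : a ^ 2 + b = 1) (hb : 0 ≤ b) : |a| ≤ 1 := by
  rw [abs_le]
  constructor <;> nlinarith [sq_nonneg a]

theorem isCompact_K0 : IsCompact K0 := by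
  apply Metric.isCompact_of_isClosed_isBounded
  · have e : K0 = {y : YY | Rotn y.1} ∩ ({y | essq y = 1} ∩ ({y | |y.2.2.1 2| ≤ 1} ∩
        {y | |y.2.2.2.1 2| ≤ 1})) := rfl
    rw [e]
    refine isClosed_Rotn.inter ((isClosed_eq cont_essq continuous_const).inter
      ((isClosed_le ?_ continuous_const).inter (isClosed_le ?_ continuous_const)))
    · fun_prop
    · fun_prop
  · refine (Metric.isBounded_closedBall (x := (0 : YY)) (r := 1)).subset ?_
    rintro ⟨O, ⟨e, s⟩, r, d, g, h⟩ ⟨hO, hq, hr, hd⟩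
    simp only [essq, nq, dt] at hq hr hd
    have sq := fun a : ℝ => sq_nonneg a
    have ms := fun a : ℝ => mul_self_nonneg a
    rw [mem_closedBall_zero_iff]
    have hOn : ‖O‖ ≤ 1 := by
      refine (pi_norm_le_iff_of_nonneg zero_le_one).2 fun i => ?_
      refine (pi_norm_le_iff_of_nonneg zero_le_one).2 fun j => ?_
      exact abs_entry (rot_row hO i) j
    have hV : ∀ v : V ℝ, |v 0| ≤ 1 → |v 1| ≤ 1 → |v 2| ≤ 1 → ‖v‖ ≤ 1 := by
      intro v h0 h1 h2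
      refine (pi_norm_le_iff_of_nonneg zero_le_one).2 fun i => ?_
      fin_cases i
      · exact h0
      · exact h1
      · exact h2
    have he : |e| ≤ 1 := abs_le_one_of_sq (b := 1 - e ^ 2) (by ring) (by
      nlinarith [sq s, sq (r 0), sq (r 1), sq (d 0), sq (d 1), ms (g 0), ms (g 1), ms (g 2),
        ms (h 0), ms (h 1), ms (h 2)])
    have hs : |s| ≤ 1 := abs_le_one_of_sq (b := 1 - s ^ 2) (by ring) (by
      nlinarith [sq e, sq (r 0), sq (r 1), sq (d 0), sq (d 1), ms (g 0), ms (g 1), ms (g 2),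
        ms (h 0), ms (h 1), ms (h 2)])
    have hr0 : |r 0| ≤ 1 := abs_le_one_of_sq (b := 1 - (r 0) ^ 2) (by ring) (by
      nlinarith [sq e, sq s, sq (r 1), sq (d 0), sq (d 1), ms (g 0), ms (g 1), ms (g 2),
        ms (h 0), ms (h 1), ms (h 2)])
    have hr1 : |r 1| ≤ 1 := abs_le_one_of_sq (b := 1 - (r 1) ^ 2) (by ring) (by
      nlinarith [sq e, sq s, sq (r 0), sq (d 0), sq (d 1), ms (g 0), ms (g 1), ms (g 2),
        ms (h 0), ms (h 1), ms (h 2)])
    have hd0 : |d 0| ≤ 1 := abs_le_one_of_sq (b := 1 - (d 0) ^ 2) (by ring) (by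
      nlinarith [sq e, sq s, sq (r 0), sq (r 1), sq (d 1), ms (g 0), ms (g 1), ms (g 2),
        ms (h 0), ms (h 1), ms (h 2)])
    have hd1 : |d 1| ≤ 1 := abs_le_one_of_sq (b := 1 - (d 1) ^ 2) (by ring) (by
      nlinarith [sq e, sq s, sq (r 0), sq (r 1), sq (d 0), ms (g 0), ms (g 1), ms (g 2),
        ms (h 0), ms (h 1), ms (h 2)])
    have hg : ∀ i, |g i| ≤ 1 := by
      intro i
      refine abs_le_one_of_sq (b := 1 - (g i) ^ 2) (by ring) ?_
      fin_cases i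
      · show 0 ≤ 1 - (g 0) ^ 2
        nlinarith [sq e, sq s, sq (r 0), sq (r 1), sq (d 0), sq (d 1), ms (g 1), ms (g 2),
          ms (h 0), ms (h 1), ms (h 2)]
      · show 0 ≤ 1 - (g 1) ^ 2
        nlinarith [sq e, sq s, sq (r 0), sq (r 1), sq (d 0), sq (d 1), ms (g 0), ms (g 2),
          ms (h 0), ms (h 1), ms (h 2)]
      · show 0 ≤ 1 - (g 2) ^ 2
        nlinarith [sq e, sq s, sq (r 0), sq (r 1), sq (d 0), sq (d 1), ms (g 0), ms (g 1),
          ms (h 0), ms (h 1), ms (h 2)]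
    have hh : ∀ i, |h i| ≤ 1 := by
      intro i
      refine abs_le_one_of_sq (b := 1 - (h i) ^ 2) (by ring) ?_
      fin_cases i
      · show 0 ≤ 1 - (h 0) ^ 2
        nlinarith [sq e, sq s, sq (r 0), sq (r 1), sq (d 0), sq (d 1), ms (g 0), ms (g 1),
          ms (g 2), ms (h 1), ms (h 2)]
      · show 0 ≤ 1 - (h 1) ^ 2
        nlinarith [sq e, sq s, sq (r 0), sq (r 1), sq (d 0), sq (d 1), ms (g 0), ms (g 1),
          ms (g 2), ms (h 0), ms (h 2)]
      · show 0 ≤ 1 - (h 2) ^ 2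
        nlinarith [sq e, sq s, sq (r 0), sq (r 1), sq (d 0), sq (d 1), ms (g 0), ms (g 1),
          ms (g 2), ms (h 0), ms (h 1)]
    simp only [Prod.norm_def, max_le_iff]
    exact ⟨hOn, ⟨he, hs⟩, hV r hr0 hr1 hr, hV d hd0 hd1 hd, hV g (hg 0) (hg 1) (hg 2),
      hV h (hh 0) (hh 1) (hh 2)⟩

end HopfPP
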