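import Pool.Agent.H758R2.HO.Normal

/-!
ROOM HO (helper754): rotations act on the derivative-free form `PK`; change of the pair `(a, b)`.
-/

open Metric
open scoped Topology

noncomputable section

namespace H754H

open Pool.Agent.H821R3 H907H H758H


/-- rotations of `ℝ³` -/
structure IsRot (R : V3 →L[ℝ] V3) : Prop where
  inn : ∀ x y : V3, inner ℝ (R x) (R y) = inner ℝ x y
  crs : ∀ x y, cr (R x) (R y) = R (cr x y)

/-- the diagonal action on `ℝ³ × ℝ³` -/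
def R6 (R : V3 →L[ℝ] V3) : A6 →L[ℝ] A6 := R.prodMap R

@[simp] theorem R6_fst (R : V3 →L[ℝ] V3) (z : A6) : (R6 R z).1 = R z.1 := rfl
@[simp] theorem R6_snd (R : V3 →L[ℝ] V3) (z : A6) : (R6 R z).2 = R z.2 := rfl

variable {R : V3 →L[ℝ] V3}

theorem pr_R6 (hR : IsRot R) (a b : A6) : pr (R6 R a) (R6 R b) = pr a b := by
  simp only [pr, R6_fst, R6_snd, hR.inn]

theorem J_R6 (hR : IsRot R) (z p : A6) : J (R6 R z) (R6 R p) = R6 R (J z p) := by
  refine Prod.ext ?_ ?_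
  · simp only [J_fst, R6_fst, hR.crs]
  · simp only [J_snd, R6_snd, hR.crs]

theorem norm_R (hR : IsRot R) (x : V3) : ‖R x‖ = ‖x‖ := by
  have h := hR.inn x x
  rw [real_inner_self_eq_norm_sq, real_inner_self_eq_norm_sq] at h
  exact (pow_left_inj₀ (norm_nonneg _) (norm_nonneg _) two_ne_zero).1 h

theorem R_inj (hR : IsRot R) : Function.Injective R := by
  rw [injective_iff_map_eq_zero]
  intro x hx
  have := norm_R hR x
  rw [hx, norm_zero] at this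
  exact norm_eq_zero.1 this.symm

theorem R_surj (hR : IsRot R) : Function.Surjective R :=
  (LinearMap.injective_iff_surjective (f := (R : V3 →ₗ[ℝ] V3))).1 (R_inj hR)

theorem R6_surj (hR : IsRot R) (w : A6) : ∃ u, R6 R u = w := by
  obtain ⟨a, ha⟩ := R_surj hR w.1
  obtain ⟨b, hb⟩ := R_surj hR w.2
  exact ⟨(a, b), Prod.ext ha hb⟩

theorem pr_ext {u v : A6} (h : ∀ w, pr u w = pr v w) : u = v := by
  refine Prod.ext (ext3 ?_ ?_ ?_) (ext3 ?_ ?_ ?_)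
  · simpa [pr, inner3, e1] using h (e1 0)
  · simpa [pr, inner3, e1] using h (e1 1)
  · simpa [pr, inner3, e1] using h (e1 2)
  · simpa [pr, inner3, e2] using h (e2 0)
  · simpa [pr, inner3, e2] using h (e2 1)
  · simpa [pr, inner3, e2] using h (e2 2)

section K

variable {K K' : A6 → A6 →L[ℝ] A6} {K1 K1' : A6 → A6 →L[ℝ] A6 →L[ℝ] A6}
  {K2 K2' : A6 → A6 →L[ℝ] A6 →L[ℝ] A6 →L[ℝ] A6}

/-- `F1` as a linear functional -/
def F1L (K : A6 → A6 →L[ℝ] A6) (K1 : A6 → A6 →L[ℝ] A6 →L[ℝ] A6) (c d z : A6) : A6 →L[ℝ] ℝ :=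
  (prB.flip (K z (J z d))).comp (J.flip c) + (prB (J z c)).comp ((K1 z).flip (J z d)) +
    (prB (J z c)).comp ((K z).comp (J.flip d))

theorem F1L_apply (c d z ζ : A6) : F1L K K1 c d z ζ = F1 K K1 c d z ζ := by
  simp [F1L, F1]

theorem coe_F1L (c d z : A6) : (F1L K K1 c d z : A6 → ℝ) = F1 K K1 c d z := by
  funext ζ
  exact F1L_apply c d z ζ

theorem pr_rot (D : A6 →L[ℝ] ℝ) (z ω : A6) : pr (rot D z) ω = D (J ω z) := by
  rw [← J_rep]
  have h1 := pr_J z (rep D) ω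
  have h2 : J ω z = -J z ω := by
    refine Prod.ext (ext3 ?_ ?_ ?_) (ext3 ?_ ?_ ?_) <;> simp <;> ring
  rw [h2, map_neg, ← pr_rep D, h1, neg_neg]

theorem pr_rotF (c d z ω : A6) : pr (rot (F1 K K1 c d z) z) ω = F1 K K1 c d z (J ω z) := by
  rw [← coe_F1L, pr_rot]

variable (hR : IsRot R) (hK : ∀ z u, K' (R6 R z) (R6 R u) = R6 R (K z u))
  (hK1 : ∀ z ζ u, K1' (R6 R z) (R6 R ζ) (R6 R u) = R6 R (K1 z ζ u))
  (hK2 : ∀ z ζ η u, K2' (R6 R z) (R6 R ζ) (R6 R η) (R6 R u) = R6 R (K2 z ζ η u))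

include hR hK

theorem WK_rot (z a : A6) : WK K' (R6 R z) (R6 R a) = R6 R (WK K z a) := by
  rw [WK_apply, WK_apply, J_R6 hR, hK, J_R6 hR, map_neg]

include hK1

theorem W1_rot (z ζ a : A6) :
    W1 K' K1' (R6 R z) (R6 R ζ) (R6 R a) = R6 R (W1 K K1 z ζ a) := by
  simp only [W1, J_R6 hR, hK, hK1, map_neg, map_add]

theorem F1_rot (c d z ζ : A6) :
    F1 K' K1' (R6 R c) (R6 R d) (R6 R z) (R6 R ζ) = F1 K K1 c d z ζ := by
  simp only [F1, J_R6 hR, hK, hK1, pr_R6 hR]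

theorem rot_rot (c d z : A6) :
    rot (F1 K' K1' (R6 R c) (R6 R d) (R6 R z)) (R6 R z) = R6 R (rot (F1 K K1 c d z) z) := by
  refine pr_ext fun w => ?_
  obtain ⟨u, rfl⟩ := R6_surj hR w
  rw [pr_rotF, J_R6 hR, F1_rot hR hK hK1, pr_R6 hR, pr_rotF]

include hK2

theorem F2_rot (c d z ζ η θ : A6) :
    F2 K' K1' K2' (R6 R c) (R6 R d) (R6 R z) (R6 R ζ) (R6 R η) (R6 R θ) =
      F2 K K1 K2 c d z ζ η θ := by
  simp only [F2, J_R6 hR, hK, hK1, hK2, pr_R6 hR, F1_rot hR hK hK1]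

/-- The curvature expression is invariant under rotations. -/
theorem PK_rot (z a b γ : A6) :
    PK K' K1' K2' (R6 R z) (R6 R a) (R6 R b) (R6 R γ) = PK K K1 K2 z a b γ := by
  simp only [PK, WK_rot hR hK, W1_rot hR hK hK1, F2_rot hR hK hK1 hK2, rot_rot hR hK hK1,
    J_R6 hR, hK, pr_R6 hR]
  rw [← map_sub, pr_R6 hR]

end K

end H754H
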